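import Pool.Agent.Helper22.SL.Defs

/-!
# T5, block SL, statement S9: the truncations of a hit are in `CC`
-/

namespace Pool.Agent.Helper22.SL

open Finset Pool.Agent.Helper27.T4 Pool.Agent.Helper29.T4 Pool.Agent.Helper22.HW

variable {κ : Type*} [DecidableEq κ] {Mk : κ → ℕ} {P : Pr κ} {I : ℕ} {X Ir : ℕ → ℕ}

/-- the target after `r` levels depends only on the label and on these levels -/
theorem TT_congr {d e : Dt} (h1 : d.1 = e.1) {r : ℕ} (h : ∀ t < r, d.2 t = e.2 t) :
    TT X d r = TT X e r := by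
  induction r with
  | zero => simp [TT, h1]
  | succ r ih =>
      have h2 := ih (fun t ht => h t (Nat.lt_succ_of_lt ht))
      simp [TT, h2, h r (Nat.lt_succ_self r)]

/-- the target of a truncation -/
theorem TT_tr (d : Dt) {r s : ℕ} (h : r ≤ s) : TT X (tr s d) r = TT X d r :=
  TT_congr (d := tr s d) (e := d) rfl (fun t ht => by
    have h2 := lt_of_lt_of_le ht h
    simp [tr, h2])

/-- one more level of the truncation -/
theorem tr_succ (d : Dt) (r : ℕ) :
    tr (r + 1) d = ((tr r d).1, Function.update (tr r d).2 r (d.2 r)) := by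
  refine Prod.ext rfl ?_
  funext t
  by_cases h : t = r
  · subst h
    simp [tr]
  · simp only [tr, Function.update_apply, if_neg h]
    by_cases h2 : t < r
    · simp [h2, Nat.lt_succ_of_lt h2]
    · have h3 : ¬ t < r + 1 := by omega
      simp [h2, h3]

omit [DecidableEq κ] in
/-- the data of a level fit to the keys which agree in the families 0 and 1 -/
theorem Lok_weak {w w' : κ → ℕ} {r t : ℕ} {ℓ : Lv}
    (h : Lok P w univ univ r t ℓ)
    (hw : ∀ y ∈ P.Y r, ∀ i : Fin 3, i ≠ 2 → w' (P.key r i y) = w (P.key r i y) ∧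
      w' (P.key' r i y) = w (P.key' r i y)) :
    Lok P w' {0, 1} {0, 1} r t ℓ where
  y := h.y
  y' := h.y'
  lt := h.lt
  lt' := h.lt'
  dvd := h.dvd
  dvd' := h.dvd'
  cmp := fun i hi => by
    have hi2 : i ≠ 2 := by
      rintro rfl
      simp at hi
    rw [(hw _ h.y i hi2).1]
    exact h.cmp i (mem_univ _)
  cmp' := fun i hi => by
    have hi2 : i ≠ 2 := by
      rintro rfl
      simp at hi
    rw [(hw _ h.y' i hi2).2]
    exact h.cmp' i (mem_univ _)
  le := h.le
  tdvd := h.tdvd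

/-- S9: the truncations of a hit are in `CC` -/
theorem tr_mem (hP : P.Ok Mk) {w : κ → ℕ} {B B' : Finset ℕ} {x : Dt × (ℕ × ℕ)}
    (hx : Hit P w I X B B' x) {r : ℕ} (hr : r ≤ P.h) (w' : κ → ℕ)
    (hw : ∀ t < r, ∀ y ∈ P.Y t, ∀ i : Fin 3, i ≠ 2 → w' (P.key t i y) = w (P.key t i y) ∧
      w' (P.key' t i y) = w (P.key' t i y)) :
    tr r x.1 ∈ CC P w' I X r ∧ TT X (tr r x.1) r = TT X x.1 r := by
  classical
  refine ⟨?_, TT_tr _ le_rfl⟩
  induction r with
  | zero =>
      refine mem_image.2 ⟨x.1.1, mem_range.2 hx.lab, ?_⟩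
      refine Prod.ext rfl ?_
      funext t
      simp [tr]
  | succ r ih =>
      have hr' : r < P.h := hr
      have h := hx.lev r hr'
      have h' : Lok P w' {0, 1} {0, 1} r (TT X x.1 r) (x.1.2 r) :=
        Lok_weak h (hw r (Nat.lt_succ_self r))
      have ih' := ih (Nat.le_of_lt hr') (fun t ht => hw t (Nat.lt_succ_of_lt ht))
      unfold CC
      refine mem_image.2 ⟨(tr r x.1, x.1.2 r), ?_, (tr_succ _ _).symm⟩
      refine mem_filter.2 ⟨mem_product.2 ⟨ih', ?_⟩, ?_⟩
      · unfold box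
        exact mem_product.2 ⟨mem_product.2 ⟨h.y, h.y'⟩,
          mem_product.2 ⟨mem_range.2 h.lt, mem_range.2 h.lt'⟩⟩
      · show Lok P w' {0, 1} {0, 1} r (TT X (tr r x.1) r) (x.1.2 r)
        rw [TT_tr _ le_rfl]
        exact h'

end Pool.Agent.Helper22.SL
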